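import Pool.Agent.KS6_49.MS.Final

set_option autoImplicit false

/-!
# Maximal strip recovery on two signed strings is fixed-parameter tractable

Q1 of MP_eb915b_lc asks whether maximal strip recovery on two permutations is fixed-parameter
tractable for the number `k` of retained characters. Here this is proved for arbitrary strings:
characters may be repeated any number of times in both genomes, and they may carry signs, in which
case a strip may occur in the second genome reversed and with all signs changed (the model of
comparative genomics). The running time is `k ^ O(k)` times a polynomial.

The method: consider the pairs of positions with equal characters, and the pairs of positions with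
opposite signed characters. A chain of `k + 2` pairs of one kind is a strip, direct or reversed.
Otherwise each kind splits into at most `k + 2` classes, in which the second position is a monotone
function of the first one, decreasing for the direct pairs and increasing for the reversed ones.
After guessing the pattern of a solution with at most `k + 1` characters (lengths, order and
orientations of the strips, and the class of each retained character) all conditions are
conditions on two variables whose violating pairs are products of half lines. This is an instance of
2-SAT; it is no longer a Horn system when both orientations occur.
-/

namespace Pool.Agent.Results.MP_eb915b_lc.SignedStringsFPT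

open Pool.Agent.NPC Pool.Agent.KS6_49.MS

/-- (1) Signed strings, with repeated characters. There is a single Turing machine which, given the
binary coding of two lists `G₁`, `G₂` of signed characters and of a number `k`, outputs the coding of
the Boolean which says whether there are subsequences of `G₁` and of `G₂` with a common strip
partition (each strip occurs in the second one as it is, or reversed with all signs changed) with at
least `k` retained characters, within `(k + 2) ^ (c (k + 1)) * (N + 1) ^ c` steps, where `N` is the
length of the coding of the instance.

(2) The same for strings of characters without signs, with repeated characters, in particular for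
two permutations. -/
theorem result :
    (∃ (tm : Turing.FinTM2) (e₀ : tm.Γ tm.k₀ ≃ Bool) (e₁ : tm.Γ tm.k₁ ≃ Bool) (c : ℕ),
      ∀ (G₁ G₂ : List (ℕ × Bool)) (k : ℕ), ∃ b : Bool,
        (b = true ↔ SignedStripRecovery G₁ G₂ k) ∧
        Nonempty (Turing.TM2OutputsInTime tm ((bits (G₁, G₂, k)).map e₀.invFun)
          (some ((bits b).map e₁.invFun))
          ((k + 2) ^ (c * (k + 1)) * ((bits (G₁, G₂, k)).length + 1) ^ c))) ∧
    (∃ (tm : Turing.FinTM2) (e₀ : tm.Γ tm.k₀ ≃ Bool) (e₁ : tm.Γ tm.k₁ ≃ Bool) (c : ℕ),
      ∀ (G₁ G₂ : List ℕ) (k : ℕ), ∃ b : Bool,
        (b = true ↔ StripRecovery G₁ G₂ k) ∧
        Nonempty (Turing.TM2OutputsInTime tm ((bits (G₁, G₂, k)).map e₀.invFun)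
          (some ((bits b).map e₁.invFun))
          ((k + 2) ^ (c * (k + 1)) * ((bits (G₁, G₂, k)).length + 1) ^ c))) :=
  ⟨signed_fpt, unsigned_fpt⟩

end Pool.Agent.Results.MP_eb915b_lc.SignedStringsFPT
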